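import Pool.Agent.Helper75.SR.Goals1

/-!
# MP_d08e19_gt, packet SR-GEL
-/

namespace Pool.Agent.Helper13.SR

set_option synthInstance.maxSize 1000
open scoped ContDiff Topology
open Pool.Agent.Helper75.SR

variable {E : Type} [NormedAddCommGroup E] [NormedSpace ℝ E] {U : Set E}

theorem hasFDerivAt_g (S : LocSas E U) {x : E} (hx : x ∈ U) :
    HasFDerivAt S.g (fderiv ℝ S.g x) x :=
  ((S.g_smooth.contDiffAt (S.isOpen.mem_nhds hx)).differentiableAt (by simp)).hasFDerivAt

theorem hasFDerivAt_xi (S : LocSas E U) (a : Fin 3) {x : E} (hx : x ∈ U) :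
    HasFDerivAt (S.xi a) (fderiv ℝ (S.xi a) x) x :=
  (((S.xi_smooth a).contDiffAt (S.isOpen.mem_nhds hx)).differentiableAt (by simp)).hasFDerivAt

/-- derivative of `y ↦ g y (xi_a y)` -/
theorem hasFDerivAt_eta (S : LocSas E U) (a : Fin 3) {x : E} (hx : x ∈ U) :
    ∃ C : E →L[ℝ] E →L[ℝ] ℝ, HasFDerivAt (fun y => S.g y (S.xi a y)) C x ∧
      ∀ u v, C u v = - S.g x (S.phi a x u) v + S.g x (S.xi a x) (S.Gam x u v) := by
  refine ⟨_, (hasFDerivAt_g S hx).clm_apply (hasFDerivAt_xi S a hx), ?_⟩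
  intro u v
  have h1 := S.compat x hx u (S.xi a x) v
  have h2 : S.phi a x u = -(fderiv ℝ (S.xi a) x u + S.Gam x u (S.xi a x)) := phiOf_apply _ _ _ _
  rw [h2]
  simp only [ContinuousLinearMap.add_apply, ContinuousLinearMap.coe_comp', Function.comp_apply,
    ContinuousLinearMap.flip_apply, map_neg, map_add, ContinuousLinearMap.neg_apply]
  rw [h1]
  ring

theorem eval2 {F : E → E →L[ℝ] E →L[ℝ] ℝ} {F' : E →L[ℝ] E →L[ℝ] E →L[ℝ] ℝ} {x : E}
    (hF : HasFDerivAt F F' x) (v w : E) :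
    ∃ L : E →L[ℝ] ℝ, HasFDerivAt (fun y => F y v w) L x ∧ ∀ u, L u = F' u v w := by
  have h1 := (hF.clm_apply (hasFDerivAt_const v x)).clm_apply (hasFDerivAt_const w x)
  exact ⟨_, h1, fun u => by simp⟩

theorem fderiv_Gb (S : LocSas E U) (β : ℝ) {x : E} (hx : x ∈ U) (u v w : E) :
    fderiv ℝ (S.Gb β) x u v w = S.g x (S.Gam x u v) w + S.g x v (S.Gam x u w)
      + β * ∑ a : Fin 3, ((- S.g x (S.phi a x u) v + S.g x (S.xi a x) (S.Gam x u v))
          * S.g x (S.xi a x) w
        + S.g x (S.xi a x) v * (- S.g x (S.phi a x u) w + S.g x (S.xi a x) (S.Gam x u w))) := by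
  choose C hC hC' using fun a => hasFDerivAt_eta S a hx
  have hd : DifferentiableAt ℝ (S.Gb β) x := by
    have h1 : ∀ a, DifferentiableAt ℝ
        (fun y => (S.g y (S.xi a y)).smulRight (S.g y (S.xi a y))) x := by
      intro a
      have hB : DifferentiableAt ℝ (fun p : (E →L[ℝ] ℝ) × (E →L[ℝ] ℝ) =>
          (p.1.smulRight p.2 : E →L[ℝ] E →L[ℝ] ℝ)) (S.g x (S.xi a x), S.g x (S.xi a x)) :=
        IsBoundedBilinearMap.differentiableAt (𝕜 := ℝ) (E := E →L[ℝ] ℝ) (F := E →L[ℝ] ℝ)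
          (G := E →L[ℝ] E →L[ℝ] ℝ) isBoundedBilinearMap_smulRight _
      have hP : DifferentiableAt ℝ (fun y => (S.g y (S.xi a y), S.g y (S.xi a y))) x :=
        (hC a).differentiableAt.prodMk (hC a).differentiableAt
      exact DifferentiableAt.comp (𝕜 := ℝ) (E := E) (F := (E →L[ℝ] ℝ) × (E →L[ℝ] ℝ))
        (G := E →L[ℝ] E →L[ℝ] ℝ) x hB hP
    have h2 : S.Gb β = fun y => S.g y
        + β • ∑ a : Fin 3, (S.g y (S.xi a y)).smulRight (S.g y (S.xi a y)) := rfl
    rw [h2]
    have h3 : DifferentiableAt ℝ (fun y => ∑ a : Fin 3,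
        ((S.g y (S.xi a y)).smulRight (S.g y (S.xi a y)) : E →L[ℝ] E →L[ℝ] ℝ)) x :=
      DifferentiableAt.fun_sum (𝕜 := ℝ) (E := E) (F := E →L[ℝ] E →L[ℝ] ℝ) (fun a _ => h1 a)
    exact DifferentiableAt.fun_add (𝕜 := ℝ) (E := E) (F := E →L[ℝ] E →L[ℝ] ℝ)
      (hasFDerivAt_g S hx).differentiableAt
      (DifferentiableAt.fun_const_smul (𝕜 := ℝ) (E := E) (F := E →L[ℝ] E →L[ℝ] ℝ) h3 β)
  obtain ⟨L1, e1, hL1⟩ := eval2 hd.hasFDerivAt v w
  have e2 : ∀ (a : Fin 3) (z : E), HasFDerivAt (fun y => S.g y (S.xi a y) z)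
      ((ContinuousLinearMap.apply ℝ ℝ z).comp (C a)) x :=
    fun a z => (ContinuousLinearMap.apply ℝ ℝ z).hasFDerivAt.comp x (hC a)
  obtain ⟨L3, e3, hL3⟩ := eval2 (hasFDerivAt_g S hx) v w
  have e4 := e3.add ((HasFDerivAt.fun_sum (u := Finset.univ)
    (fun a _ => (e2 a v).mul (e2 a w))).const_mul β)
  have e5 : (fun y => S.Gb β y v w) = ((fun y => S.g y v w) +
      fun y => β * ∑ a : Fin 3, (S.g y (S.xi a y) v * S.g y (S.xi a y) w)) := by
    funext y
    simp [S.Gb_apply]
  rw [e5] at e1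
  have e6 := congrArg (fun L => L u) (e1.unique e4)
  simp only [ContinuousLinearMap.coe_comp', Function.comp_apply, ContinuousLinearMap.apply_apply,
    ContinuousLinearMap.add_apply, ContinuousLinearMap.smul_apply, ContinuousLinearMap.sum_apply,
    smul_eq_mul, hC', hL1, hL3, S.compat x hx] at e6
  rw [e6]
  congr 2
  refine Finset.sum_congr rfl fun a _ => ?_
  ring

theorem gel (hA : GAlg) : GEL := by
  intro E _ _ U S β hβ x hx T A h
  have hs := S.g_symm x hx
  have key : ∀ V : E, S.g x (A + S.Gam x T T) V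
      + β * ∑ a : Fin 3, S.g x (S.xi a x) (A + S.Gam x T T) * S.g x (S.xi a x) V
      - 2 * β * ∑ a : Fin 3, S.g x (S.xi a x) T * S.g x (S.phi a x T) V = 0 := by
    intro V
    have h1 := h V
    rw [fderiv_Gb S β hx, fderiv_Gb S β hx, S.Gb_apply] at h1
    have hk : ∀ a v w, S.g x (S.phi a x v) w = - S.g x v (S.phi a x w) := fun a v w =>
      S.killing x hx a v w
    have hT : ∀ a, S.g x (S.phi a x T) T = 0 := by
      intro a
      have := hk a T T
      rw [hs T (S.phi a x T)] at this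
      linarith
    have hV : ∀ a, S.g x (S.phi a x V) T = - S.g x (S.phi a x T) V := by
      intro a
      rw [hk a V T, hs V]
    have hG : S.Gam x V T = S.Gam x T V := S.Gam_symm x hx V T
    rw [hG] at h1
    simp only [hT, hV, Fin.sum_univ_three, map_add, ContinuousLinearMap.add_apply] at h1 ⊢
    rw [hs T (S.Gam x T V)] at h1
    linarith
  have hb : ∀ b, S.g x (S.xi b x) (A + S.Gam x T T) = 0 := by
    intro b
    have h1 := key (S.xi b x)
    have hk : ∀ a, S.g x (S.phi a x T) (S.xi b x) = - S.g x T (S.phi a x (S.xi b x)) := fun a =>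
      S.killing x hx a T _
    have hsum : ∑ a : Fin 3, S.g x (S.xi a x) T * S.g x (S.phi a x T) (S.xi b x) = 0 := by
      have g0 := fun a : Fin 3 => (hA E U S x hx a T).1
      have g1 := fun a : Fin 3 => (hA E U S x hx a T).2.1
      have g2 := fun a : Fin 3 => (hA E U S x hx a T).2.2.1
      simp only [hk, Fin.sum_univ_three]
      fin_cases b
      · have a0 := g0 0
        have a1 := g2 1
        have a2 := g1 2
        simp only [Fin.isValue, show (1 + 2 : Fin 3) = 0 from rfl, show (1 + 1 : Fin 3) = 2 from rfl,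
          show (2 + 1 : Fin 3) = 0 from rfl, show (2 + 2 : Fin 3) = 1 from rfl] at a0 a1 a2
        simp only [Fin.zero_eta, Fin.isValue, a0, a1, a2, map_neg, map_zero]
        rw [hs T (S.xi 2 x), hs T (S.xi 1 x)]
        ring
      · have a0 := g1 0
        have a1 := g0 1
        have a2 := g2 2
        simp only [Fin.isValue, show (0 + 1 : Fin 3) = 1 from rfl, show (0 + 2 : Fin 3) = 2 from rfl,
          show (2 + 1 : Fin 3) = 0 from rfl, show (2 + 2 : Fin 3) = 1 from rfl] at a0 a1 a2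
        simp only [Fin.mk_one, Fin.isValue, a0, a1, a2, map_neg, map_zero]
        rw [hs T (S.xi 2 x), hs T (S.xi 0 x)]
        ring
      · have a0 := g2 0
        have a1 := g1 1
        have a2 := g0 2
        simp only [Fin.isValue, show (0 + 1 : Fin 3) = 1 from rfl, show (0 + 2 : Fin 3) = 2 from rfl,
          show (1 + 1 : Fin 3) = 2 from rfl, show (1 + 2 : Fin 3) = 0 from rfl] at a0 a1 a2
        simp only [Fin.reduceFinMk, Fin.isValue, a0, a1, a2, map_neg, map_zero]
        rw [hs T (S.xi 1 x), hs T (S.xi 0 x)]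
        ring
    have hsum2 : ∑ a : Fin 3, S.g x (S.xi a x) (A + S.Gam x T T) * S.g x (S.xi a x) (S.xi b x)
        = S.g x (S.xi b x) (A + S.Gam x T T) := by
      simp only [S.orth x hx]
      simp
    rw [hsum, hsum2, hs (A + S.Gam x T T)] at h1
    have : (1 + β) * S.g x (S.xi b x) (A + S.Gam x T T) = 0 := by linarith
    rcases mul_eq_zero.1 this with h2 | h2
    · linarith
    · exact h2
  refine ⟨?_, hb⟩
  have hW : ∀ V, S.g x (A + S.Gam x T T
      - (2 * β) • ∑ a : Fin 3, S.g x (S.xi a x) T • S.phi a x T) V = 0 := by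
    intro V
    have h1 := key V
    simp only [hb, zero_mul, Finset.sum_const_zero, mul_zero, add_zero] at h1
    simp only [map_sub, map_smul, map_sum, ContinuousLinearMap.sub_apply,
      ContinuousLinearMap.smul_apply, ContinuousLinearMap.sum_apply, smul_eq_mul]
    linarith
  by_contra hne
  have := S.g_pos x hx _ (sub_ne_zero.2 hne)
  rw [hW] at this
  exact lt_irrefl _ this

end Pool.Agent.Helper13.SR
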