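import Pool.Agent.Helper7.SR.Goals

/-!
# Packet SR-STEP: one common independent set which is well distributed
-/

set_option autoImplicit false

namespace Pool.Agent.Helper13.SR

open Finset
open scoped Classical
open Pool.Agent.Helper7.SR

theorem sum_om.{u, v} {α : Type u} {ι : Type v} [Fintype ι] (A : ι → Set α) (c : ι → ℝ)
    (E : Finset α) :
    ∑ v ∈ E, ∑ j, (if v ∈ A j then c j else 0) =
      ∑ j, c j * ((E.filter (fun v => v ∈ A j)).card : ℝ) := by
  rw [sum_comm]
  refine sum_congr rfl fun j _ => ?_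
  rw [← sum_filter, sum_const, nsmul_eq_mul, mul_comm]

theorem s_step.{u, v} (h : Pool.Agent.Helper7.SR.S_EX.{u}) :
    Pool.Agent.Helper7.SR.S_STEP.{u, v} := by
  intro α ι _ M N R q s Φ A hq hs hM hN hΦ
  set lam : ℝ := 1 / ((s : ℝ) + 1) ^ 2 with hlam
  let n : Finset α → ι → ℝ := fun T j => ((T.filter (fun v => v ∈ A j)).card : ℝ)
  let F : Finset α → ℝ := fun T => ∑ j, Φ j * Real.exp (-lam * n T j)
  have hsR : (3 : ℝ) ≤ s := by exact_mod_cast hs
  have hqR : (1 : ℝ) ≤ q := by exact_mod_cast hq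
  have hlam0 : 0 < lam := by positivity
  -- the minimiser
  have hne : (R.powerset.filter fun T : Finset α =>
      M.Indep (T : Set α) ∧ N.Indep (T : Set α)).Nonempty :=
    ⟨∅, by simp⟩
  obtain ⟨T, hT, hmin⟩ := exists_min_image _ F hne
  rw [mem_filter, mem_powerset] at hT
  obtain ⟨hTR, hTM, hTN⟩ := hT
  refine ⟨T, hTR, hTM, hTN, ?_⟩
  set c : ι → ℝ := fun j => Φ j * Real.exp (-lam * n T j) with hc
  have hc0 : ∀ j, 0 ≤ c j := fun j => mul_nonneg (hΦ j) (Real.exp_pos _).le
  let om : α → ℝ := fun v => ∑ j, (if v ∈ A j then c j else 0)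
  have hom0 : ∀ v, 0 ≤ om v := by
    intro v
    refine sum_nonneg fun j _ => ?_
    split_ifs
    · exact hc0 j
    · exact le_refl _
  have hsum : ∀ E : Finset α, ∑ v ∈ E, om v = ∑ j, c j * n E j := fun E => sum_om A c E
  -- local optimality
  have hopt : ∀ E Q : Finset α, E ⊆ R \ T → Q ⊆ T → E.card ≤ s + 1 → Q.card ≤ s + 1 →
      M.Indep (((T \ Q) ∪ E : Finset α) : Set α) → N.Indep (((T \ Q) ∪ E : Finset α) : Set α) →
      ∑ v ∈ E, om v ≤ ((s : ℝ) + 2) / s * ∑ v ∈ Q, om v := by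
    intro E Q hE hQ hEc hQc hEM hEN
    have hT' : ((T \ Q) ∪ E) ∈ (R.powerset.filter fun T : Finset α =>
        M.Indep (T : Set α) ∧ N.Indep (T : Set α)) := by
      rw [mem_filter, mem_powerset]
      refine ⟨union_subset (sdiff_subset.trans hTR) (hE.trans sdiff_subset), hEM, hEN⟩
    have hF := hmin _ hT'
    have hn : ∀ j, n ((T \ Q) ∪ E) j = n T j - n Q j + n E j := by
      intro j
      have e1 : ((T \ Q) ∪ E).filter (fun v => v ∈ A j) =
          (T.filter (fun v => v ∈ A j) \ Q.filter (fun v => v ∈ A j)) ∪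
            E.filter (fun v => v ∈ A j) := by
        ext v
        simp only [mem_filter, mem_union, mem_sdiff]
        tauto
      have hd : Disjoint (T.filter (fun v => v ∈ A j) \ Q.filter (fun v => v ∈ A j))
          (E.filter (fun v => v ∈ A j)) := by
        rw [disjoint_left]
        intro v hv hv'
        have h1 := (mem_sdiff.1 (hE (mem_filter.1 hv').1)).2
        exact h1 (mem_filter.1 (mem_sdiff.1 hv).1).1
      have hsub : Q.filter (fun v => v ∈ A j) ⊆ T.filter (fun v => v ∈ A j) :=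
        filter_subset_filter _ hQ
      show (((((T \ Q) ∪ E).filter (fun v => v ∈ A j)).card : ℕ) : ℝ) = _
      rw [e1, card_union_of_disjoint hd, card_sdiff_of_subset hsub, Nat.cast_add,
        Nat.cast_sub (card_le_card hsub)]
    have hEn : ∀ j, n E j ≤ s + 1 := by
      intro j
      have : ((E.filter (fun v => v ∈ A j)).card : ℝ) ≤ (E.card : ℝ) := by
        exact_mod_cast card_filter_le _ _
      have h2 : (E.card : ℝ) ≤ (s : ℝ) + 1 := by exact_mod_cast hEc
      exact this.trans h2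
    have hQn : ∀ j, n Q j ≤ s + 1 := by
      intro j
      have : ((Q.filter (fun v => v ∈ A j)).card : ℝ) ≤ (Q.card : ℝ) := by
        exact_mod_cast card_filter_le _ _
      have h2 : (Q.card : ℝ) ≤ (s : ℝ) + 1 := by exact_mod_cast hQc
      exact this.trans h2
    have hE0 : ∀ j, 0 ≤ n E j := fun j => Nat.cast_nonneg _
    have hQ0 : ∀ j, 0 ≤ n Q j := fun j => Nat.cast_nonneg _
    have key : ∀ j, Φ j * Real.exp (-lam * n ((T \ Q) ∪ E) j) ≤
        c j + lam * (c j * ((1 + 1 / ((s : ℝ) + 1)) * n Q j - (1 - 1 / ((s : ℝ) + 1)) * n E j)) := by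
      intro j
      have e2 : Φ j * Real.exp (-lam * n ((T \ Q) ∪ E) j) =
          c j * Real.exp (-(lam * (n E j - n Q j))) := by
        rw [hc]
        show _ = Φ j * Real.exp (-lam * n T j) * Real.exp (-(lam * (n E j - n Q j)))
        rw [mul_assoc, ← Real.exp_add, hn]
        ring_nf
      rw [e2]
      set w : ℝ := lam * (n E j - n Q j) with hw
      have habs : |n E j - n Q j| ≤ s + 1 := by
        rw [abs_le]
        constructor
        · linarith [hE0 j, hQn j]
        · linarith [hQ0 j, hEn j]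
      have habs2 : |n E j - n Q j| ≤ n E j + n Q j := by
        rw [abs_le]
        constructor
        · linarith [hE0 j, hQ0 j]
        · linarith [hE0 j, hQ0 j]
      have hls : lam * ((s : ℝ) + 1) = 1 / ((s : ℝ) + 1) := by
        rw [hlam]
        field_simp
      have hw1 : |w| ≤ 1 / ((s : ℝ) + 1) := by
        rw [hw, abs_mul, abs_of_pos hlam0, ← hls]
        exact mul_le_mul_of_nonneg_left habs hlam0.le
      have hh1 : 1 / ((s : ℝ) + 1) ≤ 1 := by
        rw [div_le_one (by positivity)]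
        linarith
      have hexp := Real.abs_exp_sub_one_sub_id_le (x := -w) (by rw [abs_neg]; linarith)
      have hexp2 : Real.exp (-w) ≤ 1 - w + w ^ 2 := by
        have := (abs_le.1 hexp).2
        have e3 : (-w) ^ 2 = w ^ 2 := by ring
        rw [e3] at this
        linarith
      have hw2 : w ^ 2 ≤ 1 / ((s : ℝ) + 1) * (lam * (n E j + n Q j)) := by
        have e4 : w ^ 2 = |w| * |w| := by rw [← sq, sq_abs]
        rw [e4]
        have h5 : |w| ≤ lam * (n E j + n Q j) := by
          rw [hw, abs_mul, abs_of_pos hlam0]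
          exact mul_le_mul_of_nonneg_left habs2 hlam0.le
        exact mul_le_mul hw1 h5 (abs_nonneg _) (by positivity)
      have h6 : Real.exp (-w) ≤
          1 + lam * ((1 + 1 / ((s : ℝ) + 1)) * n Q j - (1 - 1 / ((s : ℝ) + 1)) * n E j) := by
        have e5 : 1 + lam * ((1 + 1 / ((s : ℝ) + 1)) * n Q j - (1 - 1 / ((s : ℝ) + 1)) * n E j) =
            1 - w + 1 / ((s : ℝ) + 1) * (lam * (n E j + n Q j)) := by
          rw [hw]; ring
        rw [e5]
        linarith
      calc c j * Real.exp (-w) ≤ c j *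
          (1 + lam * ((1 + 1 / ((s : ℝ) + 1)) * n Q j - (1 - 1 / ((s : ℝ) + 1)) * n E j)) :=
            mul_le_mul_of_nonneg_left h6 (hc0 j)
        _ = _ := by ring
    have h7 : ∑ j, c j ≤ ∑ j, (c j + lam *
        (c j * ((1 + 1 / ((s : ℝ) + 1)) * n Q j - (1 - 1 / ((s : ℝ) + 1)) * n E j))) :=
      hF.trans (sum_le_sum fun j _ => key j)
    rw [sum_add_distrib, ← mul_sum] at h7
    have h8 : 0 ≤ ∑ j, c j * ((1 + 1 / ((s : ℝ) + 1)) * n Q j -
        (1 - 1 / ((s : ℝ) + 1)) * n E j) := by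
      have : 0 ≤ lam * ∑ j, c j * ((1 + 1 / ((s : ℝ) + 1)) * n Q j -
        (1 - 1 / ((s : ℝ) + 1)) * n E j) := by linarith
      exact (mul_nonneg_iff_of_pos_left hlam0).1 this
    have h9 : ∑ j, c j * ((1 + 1 / ((s : ℝ) + 1)) * n Q j - (1 - 1 / ((s : ℝ) + 1)) * n E j) =
        (1 + 1 / ((s : ℝ) + 1)) * ∑ v ∈ Q, om v - (1 - 1 / ((s : ℝ) + 1)) * ∑ v ∈ E, om v := by
      rw [hsum, hsum, mul_sum, mul_sum, ← sum_sub_distrib]
      exact sum_congr rfl fun j _ => by ring
    rw [h9] at h8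
    have e6 : (1 + 1 / ((s : ℝ) + 1)) = ((s : ℝ) + 2) / (s + 1) := by
      field_simp
      ring
    have e7 : (1 - 1 / ((s : ℝ) + 1)) = (s : ℝ) / (s + 1) := by
      field_simp
      ring
    rw [e6, e7] at h8
    have hs0 : (0 : ℝ) < s := by linarith
    rw [div_mul_eq_mul_div, le_div_iff₀ hs0]
    have h10 : (s : ℝ) / (s + 1) * ∑ v ∈ E, om v ≤ ((s : ℝ) + 2) / (s + 1) * ∑ v ∈ Q, om v := by
      linarith
    rw [div_mul_eq_mul_div, div_mul_eq_mul_div,
      div_le_div_iff_of_pos_right (by positivity)] at h10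
    linarith
  have hex := h α M N R T q s (((s : ℝ) + 2) / s) om hq (by omega) hTR hTM hTN hM hN
    (by positivity) hom0 hopt
  -- the weight of T
  set ST : ℝ := ∑ v ∈ T, om v with hST
  set SR : ℝ := ∑ v ∈ R, om v with hSR
  have hSD : ∑ v ∈ R \ T, om v = SR - ST := by
    have := sum_sdiff (f := om) hTR
    linarith
  rw [hSD] at hex
  have hST0 : 0 ≤ ST := sum_nonneg fun v _ => hom0 v
  have hs0 : (0 : ℝ) < s := by linarith
  have hq0 : (0 : ℝ) < q := by linarith
  have hmain : (1 - 3 / (s : ℝ)) / q * SR ≤ ST := by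
    have h1 : (s : ℝ) * ((s : ℝ) * (SR - ST)) ≤
        ((s : ℝ) + 1) * (s + 2) * ((q : ℝ) - 1) * ST := by
      have h2 := mul_le_mul_of_nonneg_left hex hs0.le
      have e8 : (s : ℝ) * (((s : ℝ) + 1) * (((s : ℝ) + 2) / s) * ((q : ℝ) - 1) * ST) =
          ((s : ℝ) + 1) * (s + 2) * ((q : ℝ) - 1) * ST := by
        field_simp
      linarith
    have h3 : (s : ℝ) ^ 2 * SR ≤ ((s : ℝ) + 1) * (s + 2) * q * ST := by
      have h4 : (s : ℝ) ^ 2 * ST ≤ ((s : ℝ) + 1) * (s + 2) * ST := by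
        apply mul_le_mul_of_nonneg_right _ hST0
        nlinarith
      nlinarith
    have hSR0 : 0 ≤ SR := sum_nonneg fun v _ => hom0 v
    -- (s - 3) (s + 1) (s + 2) ≤ s ^ 3
    have h5 : ((s : ℝ) - 3) * (((s : ℝ) + 1) * (s + 2)) ≤ (s : ℝ) ^ 3 := by nlinarith
    have h6 : ((s : ℝ) - 3) * (((s : ℝ) + 1) * (s + 2)) * SR ≤
        s * (((s : ℝ) + 1) * (s + 2) * q * ST) := by
      calc ((s : ℝ) - 3) * (((s : ℝ) + 1) * (s + 2)) * SR ≤ (s : ℝ) ^ 3 * SR :=
            mul_le_mul_of_nonneg_right h5 hSR0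
        _ = s * ((s : ℝ) ^ 2 * SR) := by ring
        _ ≤ _ := mul_le_mul_of_nonneg_left h3 hs0.le
    have hP : (0 : ℝ) < ((s : ℝ) + 1) * (s + 2) := by positivity
    have h7 : ((s : ℝ) - 3) * SR ≤ s * (q * ST) := by
      have h8 : (((s : ℝ) + 1) * (s + 2)) * (((s : ℝ) - 3) * SR) ≤
          (((s : ℝ) + 1) * (s + 2)) * (s * (q * ST)) := by linarith
      exact le_of_mul_le_mul_left h8 hP
    have e9 : (1 - 3 / (s : ℝ)) / q * SR = (((s : ℝ) - 3) * SR) / (s * q) := by
      field_simp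
    rw [e9, div_le_iff₀ (by positivity)]
    linarith
  -- the final inequality
  have hfin : ∀ j, c j - lam * (c j * ((1 - 3 / (s : ℝ)) / q * n R j) - c j * n T j) ≤
      Φ j * Real.exp (-lam * ((1 - 3 / (s : ℝ)) / q * n R j)) := by
    intro j
    set mu : ℝ := (1 - 3 / (s : ℝ)) / q * n R j with hmu
    have e10 : Φ j * Real.exp (-lam * mu) = c j * Real.exp (-(lam * (mu - n T j))) := by
      rw [hc]
      show _ = Φ j * Real.exp (-lam * n T j) * Real.exp (-(lam * (mu - n T j)))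
      rw [mul_assoc, ← Real.exp_add]
      ring_nf
    rw [e10]
    have h1 := Real.add_one_le_exp (-(lam * (mu - n T j)))
    calc c j - lam * (c j * mu - c j * n T j) = c j * (-(lam * (mu - n T j)) + 1) := by ring
      _ ≤ _ := mul_le_mul_of_nonneg_left h1 (hc0 j)
  have h11 : ∑ j, c j ≤ ∑ j, (c j - lam * (c j * ((1 - 3 / (s : ℝ)) / q * n R j) - c j * n T j)) := by
    rw [sum_sub_distrib, ← mul_sum, sum_sub_distrib]
    have e11 : ∑ j, c j * ((1 - 3 / (s : ℝ)) / q * n R j) = (1 - 3 / (s : ℝ)) / q * SR := by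
      rw [hSR, hsum, mul_sum]
      exact sum_congr rfl fun j _ => by ring
    rw [e11, ← hsum T, ← hST]
    have : lam * ((1 - 3 / (s : ℝ)) / q * SR - ST) ≤ 0 :=
      mul_nonpos_of_nonneg_of_nonpos hlam0.le (by linarith)
    linarith
  exact h11.trans (sum_le_sum fun j _ => hfin j)

end Pool.Agent.Helper13.SR
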