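import Pool.Agent.Helper29.SR.Props
import Pool.Agent.Helper10.RC.Basic
import Pool.Agent.Helper10.RC.Homs

/-!
# MP_b55b7c_an: packet SR-TTr
-/

open scoped ENNReal NNReal InnerProductSpace ComplexOrder
open Filter Topology

attribute [-instance] CStarMatrix.instAlgebra CStarMatrix.instModule CStarMatrix.instSMul
  CStarMatrix.instMulAction CStarMatrix.instDistribMulAction

noncomputable section
namespace RC
universe u

section
variable {M : Type u} [CStarAlgebra M] [PartialOrder M] [StarOrderedRing M]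

theorem ttr_dim_le (σ : QTrace M) (x : CStarMatrix Unit Unit M) (hx : 0 ≤ x) (F G : ℝ → ℝ)
    (hF : Continuous F) (hG : Continuous G) (hF0 : ∀ t, 0 ≤ t → 0 ≤ F t)
    (hG0 : ∀ t, 0 ≤ t → 0 ≤ G t)
    (h : ∀ (n : ℕ) (ε : ℝ), 0 < ε → ∃ m : ℕ, ∀ t : ℝ, 0 ≤ t →
      min 1 ((n : ℝ) * F t) ≤ ε + min 1 ((m : ℝ) * G t)) :
    σ.dim (cfc F x) ≤ σ.dim (cfc G x) := by
  have hsa : IsSelfAdjoint x := hx.isSelfAdjoint
  have hsp : ∀ t ∈ spectrum ℝ x, 0 ≤ t := fun t ht => spectrum_nonneg_of_nonneg hx ht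
  have key : ∀ (H : ℝ → ℝ), Continuous H → ∀ n : ℕ,
      cfc (fun t : ℝ => min 1 ((n : ℝ) * t)) (cfc H x) =
        cfc (fun t : ℝ => min 1 ((n : ℝ) * H t)) x := by
    intro H hH n
    rw [← cfc_comp' (fun t : ℝ => min 1 ((n : ℝ) * t)) H x]
  have h1 : σ.τ Unit (cfc (fun _ : ℝ => (1 : ℝ)) x) = 1 := by
    rw [cfc_const_one ℝ x]
    exact σ.one
  have bdd : BddAbove (Set.range fun n : ℕ =>
      σ.τ Unit (cfc (fun t : ℝ => min 1 ((n : ℝ) * t)) (cfc G x))) := by
    refine ⟨1, ?_⟩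
    rintro _ ⟨n, rfl⟩
    simp only
    rw [key G hG n]
    refine le_trans (σ.cfc_mono (g := fun _ : ℝ => (1 : ℝ)) (by fun_prop) (by fun_prop) ?_ ?_)
      h1.le
    · intro t ht
      exact le_min zero_le_one (mul_nonneg n.cast_nonneg (hG0 t (hsp t ht)))
    · intro t _
      exact min_le_left _ _
  unfold QTrace.dim
  refine ciSup_le fun n => ?_
  refine le_of_forall_pos_le_add fun ε hε => ?_
  obtain ⟨m, hm⟩ := h n ε hε
  have h2 : σ.τ Unit (cfc (fun t : ℝ => min 1 ((n : ℝ) * F t)) x) ≤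
      σ.τ Unit (cfc (fun t : ℝ => ε * 1 + min 1 ((m : ℝ) * G t)) x) := by
    refine σ.cfc_mono (by fun_prop) (by fun_prop) ?_ ?_
    · intro t ht
      exact le_min zero_le_one (mul_nonneg n.cast_nonneg (hF0 t (hsp t ht)))
    · intro t ht
      rw [mul_one]
      exact hm t (hsp t ht)
  have h3 : σ.τ Unit (cfc (fun t : ℝ => ε * 1 + min 1 ((m : ℝ) * G t)) x) =
      ε + σ.τ Unit (cfc (fun t : ℝ => min 1 ((m : ℝ) * G t)) x) := by
    rw [σ.cfc_add (f := fun _ : ℝ => ε * 1) (g := fun t : ℝ => min 1 ((m : ℝ) * G t))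
      (by fun_prop) (by fun_prop) (fun _ _ => by positivity)
      (fun t ht => le_min zero_le_one (mul_nonneg m.cast_nonneg (hG0 t (hsp t ht)))),
      σ.cfc_smul (f := fun _ : ℝ => (1 : ℝ)) (by fun_prop) (fun _ _ => zero_le_one) hε.le, h1,
      mul_one]
  have h4 := le_ciSup bdd m
  rw [key G hG m] at h4
  rw [key F hF n]
  linarith

theorem ttr_dim_sqrt (σ : QTrace M) (a : M) (ha : 0 ≤ a) :
    σ.dim (one1 (cfc Real.sqrt a)) = σ.dim (one1 a) := by
  have hx : 0 ≤ one1 a := one1_nonneg ha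
  have e1 : one1 (cfc Real.sqrt a) = cfc Real.sqrt (one1 a) :=
    one1_cfc Real.sqrt Real.continuous_sqrt a ha.isSelfAdjoint
  have e2 : σ.dim (one1 a) = σ.dim (cfc (fun t : ℝ => t) (one1 a)) := by
    rw [cfc_id' ℝ (one1 a) hx.isSelfAdjoint]
  rw [e1, e2]
  refine le_antisymm ?_ ?_
  · refine ttr_dim_le σ (one1 a) hx Real.sqrt (fun t => t) Real.continuous_sqrt continuous_id
      (fun t _ => Real.sqrt_nonneg t) (fun t ht => ht) ?_
    intro n ε hε
    obtain ⟨m, hm⟩ := exists_nat_ge ((n : ℝ) ^ 2 / ε ^ 2)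
    refine ⟨m, fun t ht => ?_⟩
    have hn : (0 : ℝ) ≤ n := n.cast_nonneg
    rcases le_total ((n : ℝ) * √t) ε with h | h
    · have h1 : 0 ≤ min 1 ((m : ℝ) * t) := le_min zero_le_one (mul_nonneg m.cast_nonneg ht)
      have h2 := min_le_right 1 ((n : ℝ) * √t)
      linarith
    · have h1 : ε ^ 2 ≤ (n : ℝ) ^ 2 * t := by
        have := pow_le_pow_left₀ hε.le h 2
        rwa [mul_pow, Real.sq_sqrt ht] at this
      have h2 : 1 ≤ (m : ℝ) * t := by
        calc (1 : ℝ) ≤ (n : ℝ) ^ 2 / ε ^ 2 * t := by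
              rw [div_mul_eq_mul_div, le_div_iff₀ (by positivity)]
              linarith
          _ ≤ (m : ℝ) * t := mul_le_mul_of_nonneg_right hm ht
      rw [min_eq_left h2]
      have h3 := min_le_left 1 ((n : ℝ) * √t)
      linarith
  · refine ttr_dim_le σ (one1 a) hx (fun t => t) Real.sqrt continuous_id Real.continuous_sqrt
      (fun t ht => ht) (fun t _ => Real.sqrt_nonneg t) ?_
    intro n ε hε
    obtain ⟨m, hm⟩ := exists_nat_ge (√((n : ℝ) / ε))
    refine ⟨m, fun t ht => ?_⟩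
    have hn : (0 : ℝ) ≤ n := n.cast_nonneg
    rcases le_total ((n : ℝ) * t) ε with h | h
    · have h1 : 0 ≤ min 1 ((m : ℝ) * √t) :=
        le_min zero_le_one (mul_nonneg m.cast_nonneg (Real.sqrt_nonneg t))
      have h2 := min_le_right 1 ((n : ℝ) * t)
      linarith
    · have h2 : 1 ≤ (m : ℝ) * √t := by
        calc (1 : ℝ) ≤ √((n : ℝ) / ε * t) := by
              rw [Real.one_le_sqrt, div_mul_eq_mul_div, le_div_iff₀ hε]
              linarith
          _ = √((n : ℝ) / ε) * √t := Real.sqrt_mul (by positivity) _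
          _ ≤ (m : ℝ) * √t := mul_le_mul_of_nonneg_right hm (Real.sqrt_nonneg t)
      rw [min_eq_left h2]
      have h3 := min_le_left 1 ((n : ℝ) * t)
      linarith

theorem ttr_sqrt_mul (a : M) (ha : 0 ≤ a) : cfc Real.sqrt a * cfc Real.sqrt a = a := by
  rw [← cfc_mul Real.sqrt Real.sqrt a (by fun_prop) (by fun_prop)]
  conv_rhs => rw [← cfc_id' ℝ a ha.isSelfAdjoint]
  refine cfc_congr fun t ht => ?_
  exact Real.mul_self_sqrt (spectrum_nonneg_of_nonneg ha ht)

theorem ttr_ramp_cont (s t : ℝ) : Continuous (ramp s t) := by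
  unfold ramp
  fun_prop

theorem ttr_conj_le (r x y : M) (hr : IsSelfAdjoint r) (h : x ≤ y) : r * x * r ≤ r * y * r := by
  have := star_left_conjugate_le_conjugate h r
  rwa [hr.star_eq] at this

theorem ttr_conj_nonneg (r x : M) (hr : IsSelfAdjoint r) (h : 0 ≤ x) : 0 ≤ r * x * r := by
  have := star_left_conjugate_nonneg h r
  rwa [hr.star_eq] at this

/-- `φ(r E r) ≤ c φ(E)` if `r r ≤ c`. -/
theorem ttr_trace_le (φ : TState M) (r E : M) (c : ℝ) (hE : 0 ≤ E)
    (hrr : r * r ≤ c • (1 : M)) : (φ.φ (r * E * r)).re ≤ c * (φ.φ E).re := by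
  have hs := ttr_sqrt_mul E hE
  set s := cfc Real.sqrt E with hsdef
  have hssa : IsSelfAdjoint s := cfc_predicate _ _
  have e1 : φ.φ (r * E * r) = φ.φ (s * (r * r) * s) := by
    rw [φ.trace (r * E) r, φ.trace (s * (r * r)) s]
    rw [← mul_assoc, ← mul_assoc s s (r * r), hs, φ.trace (r * r) E]
  have e2 : s * (r * r) * s ≤ c • E := by
    have := ttr_conj_le s _ _ hssa hrr
    rwa [mul_smul_comm, mul_one, smul_mul_assoc, hs] at this
  have e3 : 0 ≤ φ.φ (c • E - s * (r * r) * s) := φ.nonneg _ (sub_nonneg.2 e2)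
  rw [map_sub] at e3
  have e4 : φ.φ (c • E) = (c : ℂ) * φ.φ E := by
    rw [← Complex.coe_smul, map_smul, smul_eq_mul]
  have e5 := (Complex.le_def.1 e3).1
  rw [e4] at e5
  simp only [Complex.zero_re, Complex.sub_re, Complex.mul_re, Complex.ofReal_re,
    Complex.ofReal_im, zero_mul, sub_zero] at e5
  rw [e1]
  linarith

end

theorem tTrP (hX : XMaxP.{u}) : TTrP.{u} := by
  intro M _ _ _ hsr a b ha hb hab δ ε hδ hε
  have ha1 := ttr_sqrt_mul a ha
  have hb1 := ttr_sqrt_mul b hb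
  have ha10 : 0 ≤ cfc Real.sqrt a := cfc_nonneg fun t _ => Real.sqrt_nonneg t
  have hb10 : 0 ≤ cfc Real.sqrt b := cfc_nonneg fun t _ => Real.sqrt_nonneg t
  have hd : ∀ (φ : TState M) (σ : QTrace M), IsQ φ σ →
      σ.dim (one1 (cfc Real.sqrt a)) < σ.dim (one1 (cfc Real.sqrt b)) := by
    intro φ σ h
    rw [ttr_dim_sqrt σ a ha, ttr_dim_sqrt σ b hb]
    exact hab φ σ h
  set a₁ := cfc Real.sqrt a with ha₁
  set b₁ := cfc Real.sqrt b with hb₁
  have hδ1 : 0 < √δ := Real.sqrt_pos.2 hδ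
  have hε1 : 0 < ε / (‖a‖ + 1) := by positivity
  obtain ⟨X, η, hη, hφ⟩ := hX M hsr a₁ b₁ ha10 hb10 hd (√δ) (ε / (‖a‖ + 1)) hδ1 hε1
  set e := cfc (ramp (√δ / 2) (√δ)) a₁ with he
  set V := b₁ * X * a₁ with hV
  set k := cfc (ramp (η / 2) η) (e * sq V * e) with hk
  have hesa : IsSelfAdjoint e := cfc_predicate _ _
  have ha1sa : IsSelfAdjoint a₁ := ha10.isSelfAdjoint
  have hb1sa : IsSelfAdjoint b₁ := hb10.isSelfAdjoint
  set r := cfc (fun t : ℝ => √(max (t ^ 2 - δ) 0)) a₁ with hr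
  have hrsa : IsSelfAdjoint r := cfc_predicate _ _
  -- `e r = r`
  have hsp : ∀ t ∈ spectrum ℝ a₁, 0 ≤ t := fun t ht => spectrum_nonneg_of_nonneg ha10 ht
  have hcr : Continuous (fun t : ℝ => √(max (t ^ 2 - δ) 0)) := by fun_prop
  have her : e * r = r := by
    rw [he, hr, ← cfc_mul _ _ a₁ (ttr_ramp_cont _ _).continuousOn hcr.continuousOn]
    refine cfc_congr fun t ht => ?_
    rcases le_total t (√δ) with h | h
    · have h1 : t ^ 2 - δ ≤ 0 := by
        have := pow_le_pow_left₀ (hsp t ht) h 2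
        rw [Real.sq_sqrt hδ.le] at this
        linarith
      rw [max_eq_right h1, Real.sqrt_zero, mul_zero]
    · have h1 : ramp (√δ / 2) (√δ) t = 1 := by
        unfold ramp
        have h2 : 1 ≤ (t - √δ / 2) / (√δ - √δ / 2) := by
          rw [le_div_iff₀ (by linarith)]
          linarith
        rw [min_eq_left h2, max_eq_right zero_le_one]
      rw [h1, one_mul]
  have hre : r * e = r := by
    have := congrArg star her
    rwa [star_mul, hrsa.star_eq, hesa.star_eq] at this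
  -- `r r = (a - δ)_+`
  have hrr : r * r = cut a δ := by
    rw [hr, ← cfc_mul _ _ a₁ hcr.continuousOn hcr.continuousOn]
    unfold cut
    have e1 : cfc (fun t : ℝ => max (t - δ) 0) a =
        cfc (fun t : ℝ => max (√t * √t - δ) 0) a := by
      refine cfc_congr fun t ht => ?_
      rw [Real.mul_self_sqrt (spectrum_nonneg_of_nonneg ha ht)]
    rw [e1, cfc_comp' (fun t : ℝ => max (t * t - δ) 0) Real.sqrt a, ← ha₁]
    refine cfc_congr fun t _ => ?_
    rw [Real.mul_self_sqrt (le_max_right _ _), pow_two]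
  -- bounds for `k`
  have hW : 0 ≤ e * sq V * e := ttr_conj_nonneg e _ hesa (star_mul_self_nonneg V)
  have hk1 : k ≤ 1 := by
    refine cfc_le_one _ _ fun t _ => ?_
    unfold ramp
    exact max_le zero_le_one (min_le_left _ _)
  have hk2 : k ≤ (2 / η) • (e * sq V * e) := by
    have e1 : (2 / η) • (e * sq V * e) = cfc (fun t : ℝ => (2 / η) * t) (e * sq V * e) := by
      rw [cfc_const_mul (2 / η) (fun t : ℝ => t) (e * sq V * e), cfc_id' ℝ _ hW.isSelfAdjoint]
    rw [e1, hk]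
    refine cfc_mono (fun t ht => ?_) (ttr_ramp_cont _ _).continuousOn (by fun_prop)
    have ht0 := spectrum_nonneg_of_nonneg hW ht
    unfold ramp
    refine max_le (by positivity) ?_
    rcases le_total t (η / 2) with h | h
    · refine (min_le_right _ _).trans ?_
      have h1 : (t - η / 2) / (η - η / 2) ≤ 0 := div_nonpos_of_nonpos_of_nonneg (by linarith)
        (by linarith)
      have h2 : 0 ≤ 2 / η * t := by positivity
      linarith
    · refine (min_le_left _ _).trans ?_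
      rw [div_mul_eq_mul_div, le_div_iff₀ hη]
      linarith
  have hE : 0 ≤ e * (1 - k) * e := ttr_conj_nonneg e _ hesa (sub_nonneg.2 hk1)
  have hrE : r * (e * (1 - k) * e) * r = r * (1 - k) * r := by
    calc r * (e * (1 - k) * e) * r = (r * e) * (1 - k) * (e * r) := by simp only [mul_assoc]
      _ = r * (1 - k) * r := by rw [her, hre]
  refine ⟨√(2 / η) • (X * a₁ * r), r * (1 - k) * r, ttr_conj_nonneg r _ hrsa (sub_nonneg.2 hk1),
    ?_, ?_⟩
  · have e1 : r * k * r ≤ star (√(2 / η) • (X * a₁ * r)) * b * (√(2 / η) • (X * a₁ * r)) := by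
      have e2 := ttr_conj_le r _ _ hrsa hk2
      refine e2.trans (le_of_eq ?_)
      have e3 : star (√(2 / η) • (X * a₁ * r)) = √(2 / η) • (r * a₁ * star X) := by
        rw [star_smul, star_mul, star_mul, ha1sa.star_eq, hrsa.star_eq, star_trivial, mul_assoc]
      have e4 : sq V = a₁ * star X * b * X * a₁ := by
        simp only [sq, hV, star_mul, ha1sa.star_eq, hb1sa.star_eq]
        rw [← hb1]
        simp only [mul_assoc]
      have e5 : r * (e * sq V * e) * r = r * sq V * r := by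
        calc r * (e * sq V * e) * r = (r * e) * sq V * (e * r) := by simp only [mul_assoc]
          _ = r * sq V * r := by rw [her, hre]
      rw [e3, mul_smul_comm, smul_mul_assoc, e5, e4]
      simp only [smul_mul_assoc, mul_smul_comm, smul_smul]
      rw [Real.mul_self_sqrt (by positivity)]
      simp only [mul_assoc]
    have e6 : cut a δ = r * k * r + r * (1 - k) * r := by
      rw [← hrr]
      noncomm_ring
    calc a ≤ cut a δ + δ • (1 : M) := le_cut_add ha.isSelfAdjoint δ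
      _ = r * k * r + r * (1 - k) * r + δ • (1 : M) := by rw [e6]
      _ ≤ _ := by gcongr
  · intro φ
    rw [← hrE]
    have e1 : r * r ≤ ‖a‖ • (1 : M) := by
      rw [hrr]
      refine (cut_le ha hδ.le).trans ?_
      have := IsSelfAdjoint.le_algebraMap_norm_self (a := a) ha.isSelfAdjoint
      rwa [Algebra.algebraMap_eq_smul_one] at this
    have e2 := ttr_trace_le φ r _ ‖a‖ hE e1
    have e3 := hφ φ
    have e4 : ‖a‖ * (ε / (‖a‖ + 1)) ≤ ε := by
      rw [mul_div_assoc', div_le_iff₀ (by positivity)]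
      nlinarith [norm_nonneg a]
    have e5 := mul_le_mul_of_nonneg_left e3 (norm_nonneg a)
    linarith

end RC
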